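import Pool.Agent.Y395.SP.Stm

/-!
# SP-CODE: binary codes for lazy executions
-/

set_option autoImplicit false

namespace Pool.Agent.Y532.SP

open Pool.Agent.H581R2.Splay Pool.Agent.TH49.Spl Pool.Agent.Y395.SP

/-- the shape of a marked part -/
def sh : Ctx → List Bool
  | .hole _ => [false]
  | .node _ l r => true :: (sh l ++ sh r)

lemma sh_len (C : Ctx) : (sh C).length = 2 * msize C + 1 := by
  induction C with
  | hole t => rfl
  | node a l r hl hr =>
    simp only [sh, msize, List.length_cons, List.length_append, hl, hr]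
    ring

lemma fl_len (C : Ctx) : (fl C).length = 2 * msize C + 1 := by
  induction C with
  | hole t => rfl
  | node a l r hl hr =>
    simp only [fl, msize, List.length_cons, List.length_append, hl, hr]
    ring

/-- prefix code -/
lemma sh_prefix (C : Ctx) : ∀ (C2 : Ctx) (g g2 : List Bool), sh C ++ g = sh C2 ++ g2 →
    sh C = sh C2 ∧ g = g2 := by
  induction C with
  | hole t =>
    intro C2 g g2 h
    cases C2 with
    | hole t2 =>
      simp only [sh, List.cons_append, List.nil_append, List.cons.injEq, true_and] at h ⊢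
      exact h
    | node a l r => simp [sh] at h
  | node a l r hl hr =>
    intro C2 g g2 h
    cases C2 with
    | hole t2 => simp [sh] at h
    | node a2 l2 r2 =>
      simp only [sh, List.cons_append, List.append_assoc, List.cons.injEq, true_and] at h ⊢
      obtain ⟨h1, h2⟩ := hl _ _ _ h
      obtain ⟨h3, h4⟩ := hr _ _ _ h2
      exact ⟨by rw [h1, h3], h4⟩

lemma sh_node {a a2 : ℕ} {l r l2 r2 : Ctx} (h : sh (.node a l r) = sh (.node a2 l2 r2)) :
    sh l = sh l2 ∧ sh r = sh r2 := by
  simp only [sh, List.cons.injEq, true_and] at h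
  exact sh_prefix l l2 _ _ h

lemma msize_of_sh {C C2 : Ctx} (h : sh C = sh C2) : msize C = msize C2 := by
  have h1 := congrArg List.length h
  rw [sh_len, sh_len] at h1
  omega

lemma sh_erase (C : Ctx) : ∀ C2 : Ctx, sh C = sh C2 → erase C = erase C2 → C = C2 := by
  induction C with
  | hole t =>
    intro C2 h he
    cases C2 with
    | hole t2 =>
      simp only [erase] at he
      rw [he]
    | node a l r => simp [sh] at h
  | node a l r hl hr =>
    intro C2 h he
    cases C2 with
    | hole t2 => simp [sh] at h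
    | node a2 l2 r2 =>
      obtain ⟨h1, h2⟩ := sh_node h
      simp only [erase, Tr.node.injEq] at he
      rw [he.1, hl _ h1 he.2.1, hr _ h2 he.2.2]

lemma sh_fl (C : Ctx) : ∀ C2 : Ctx, sh C = sh C2 → fl C = fl C2 → C = C2 := by
  induction C with
  | hole t =>
    intro C2 h he
    cases C2 with
    | hole t2 =>
      simp only [fl, List.cons.injEq, Sum.inl.injEq, and_true] at he
      rw [he]
    | node a l r => simp [sh] at h
  | node a l r hl hr =>
    intro C2 h he
    cases C2 with
    | hole t2 => simp [sh] at h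
    | node a2 l2 r2 =>
      obtain ⟨h1, h2⟩ := sh_node h
      simp only [fl] at he
      have hlen : (fl l).length = (fl l2).length := by
        rw [fl_len, fl_len, msize_of_sh h1]
      obtain ⟨h3, h4⟩ := List.append_inj he hlen
      simp only [List.cons.injEq, Sum.inr.injEq] at h4
      rw [h4.1, hl _ h1 h3, hr _ h2 h4.2]

/-- unary code -/
lemma un_prefix (i : ℕ) : ∀ (j : ℕ) (g g2 : List Bool),
    List.replicate i true ++ (false :: g) = List.replicate j true ++ (false :: g2) →
    i = j ∧ g = g2 := by
  induction i with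
  | zero =>
    intro j g g2 h
    cases j with
    | zero => simpa using h
    | succ j => simp [List.replicate_succ] at h
  | succ i ih =>
    intro j g g2 h
    cases j with
    | zero => simp [List.replicate_succ] at h
    | succ j =>
      simp only [List.replicate_succ, List.cons_append, List.cons.injEq, true_and] at h
      obtain ⟨h1, h2⟩ := ih j g g2 h
      exact ⟨by rw [h1], h2⟩

/-- the codes of lazy executions -/
inductive Enc : Tr → List ℕ → List Bool → Prop
  | nil (K : Tr) : Enc K [] []
  | cons (C C' : Ctx) (x i : ℕ) (X : List ℕ) (b : List Bool) : fl C = fl C' →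
      (fl C)[i]? = some (Sum.inr x) → Enc (erase C') X b →
      Enc (erase C) (x :: X) (sh C ++ (sh C' ++ (List.replicate i true ++ (false :: b))))

lemma enc_of_lazy {K : Tr} {X : List ℕ} {w : ℕ} (h : Lazy K X w) :
    ∃ b, Enc K X b ∧ b.length ≤ 9 * w := by
  induction h with
  | nil K => exact ⟨[], Enc.nil K, by simp⟩
  | cons C C' x X q w hf hq hx _ ih =>
    obtain ⟨b, hb, hbl⟩ := ih
    obtain ⟨i, hi⟩ := List.mem_iff_getElem?.1 hx
    refine ⟨_, Enc.cons C C' x i X b hf hi hb, ?_⟩
    have hi2 : i < (fl C).length := by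
      rw [List.getElem?_eq_some_iff] at hi
      exact hi.1
    have hCC : msize C = msize C' := by
      have h1 := congrArg List.length hf
      rw [fl_len, fl_len] at h1
      omega
    have h1 : 1 ≤ msize C := by
      cases C with
      | hole t => simp [fl] at hx
      | node a l r => simp [msize]
    rw [fl_len] at hi2
    simp only [List.length_append, List.length_cons, List.length_replicate, sh_len]
    omega

lemma enc_nil {K : Tr} {b : List Bool} (h : Enc K [] b) : b = [] := by
  cases h
  rfl

lemma enc_cons {K : Tr} {x : ℕ} {X : List ℕ} {b : List Bool} (h : Enc K (x :: X) b) :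
    ∃ (C C' : Ctx) (i : ℕ) (b1 : List Bool), K = erase C ∧ fl C = fl C' ∧
      (fl C)[i]? = some (Sum.inr x) ∧ Enc (erase C') X b1 ∧
      b = sh C ++ (sh C' ++ (List.replicate i true ++ (false :: b1))) := by
  cases h with
  | cons C C' _ i _ b1 h1 h2 h3 => exact ⟨C, C', i, b1, rfl, h1, h2, h3, rfl⟩

lemma enc_inj (X : List ℕ) : ∀ (K : Tr) (Y : List ℕ) (b b' g g' : List Bool), Enc K X b →
    Enc K Y b' → X.length = Y.length → b ++ g = b' ++ g' → X = Y ∧ g = g' := by
  induction X with
  | nil =>
    intro K Y b b' g g' h1 h2 hlen h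
    have hY : Y = [] := by
      rw [List.length_nil] at hlen
      exact List.length_eq_zero_iff.1 hlen.symm
    subst hY
    rw [enc_nil h1, enc_nil h2] at h
    exact ⟨rfl, by simpa using h⟩
  | cons x X ih =>
    intro K Y b b' g g' h1 h2 hlen h
    cases Y with
    | nil => simp at hlen
    | cons y Y =>
      obtain ⟨C, C', i, b1, hK, hf, hi, he, rfl⟩ := enc_cons h1
      obtain ⟨C2, C2', i2, b2, hK2, hf2, hi2, he2, rfl⟩ := enc_cons h2
      simp only [List.append_assoc, List.cons_append] at h
      obtain ⟨e1, e2⟩ := sh_prefix C C2 _ _ h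
      have hC : C = C2 := sh_erase C C2 e1 (by rw [← hK, ← hK2])
      subst hC
      obtain ⟨e3, e4⟩ := sh_prefix C' C2' _ _ e2
      have hC' : C' = C2' := sh_fl C' C2' e3 (by rw [← hf, ← hf2])
      subst hC'
      obtain ⟨e5, e6⟩ := un_prefix i i2 _ _ e4
      subst e5
      have hx : x = y := by
        rw [hi] at hi2
        simpa using hi2
      subst hx
      obtain ⟨e7, e8⟩ := ih (erase C') Y b1 b2 g g' he he2 (by simpa using hlen) e6
      exact ⟨by rw [e7], e8⟩

/-- **SP-CODE, part 1** -/
theorem code1 : SCode1 := by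
  classical
  intro m K
  have hex : ∀ X : List ℕ, (∃ w, Lazy K X w) → ∃ b, Enc K X b ∧ ∀ w, Lazy K X w →
      b.length ≤ 9 * w := by
    intro X hX
    obtain ⟨b, hb, hbl⟩ := enc_of_lazy (Nat.find_spec hX)
    refine ⟨b, hb, fun w hw => hbl.trans ?_⟩
    exact Nat.mul_le_mul_left 9 (Nat.find_min' hX hw)
  refine ⟨fun X => if h : ∃ w, Lazy K X w then (hex X h).choose else [], ?_, ?_⟩
  · intro X w _ hw
    have h : ∃ w, Lazy K X w := ⟨w, hw⟩
    simp only
    rw [dif_pos h]
    exact (hex X h).choose_spec.2 w hw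
  · rintro X ⟨hXm, hX⟩ Y ⟨hYm, hY⟩ h
    simp only at h
    rw [dif_pos hX, dif_pos hY] at h
    exact (enc_inj X K Y _ _ [] [] (hex X hX).choose_spec.1 (hex Y hY).choose_spec.1
      (by rw [hXm, hYm]) (by rw [h])).1

/-- the shape of a tree -/
def shT : Tr → List Bool
  | .nil => [false]
  | .node _ l r => true :: (shT l ++ shT r)

lemma shT_len (T : Tr) : (shT T).length = 2 * (keys T).length + 1 := by
  induction T with
  | nil => rfl
  | node a l r hl hr =>
    simp only [shT, keys, List.length_cons, List.length_append, hl, hr]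
    ring

lemma shT_prefix (T : Tr) : ∀ (T2 : Tr) (g g2 : List Bool), shT T ++ g = shT T2 ++ g2 →
    shT T = shT T2 ∧ g = g2 := by
  induction T with
  | nil =>
    intro T2 g g2 h
    cases T2 with
    | nil =>
      simp only [shT, List.cons_append, List.nil_append, List.cons.injEq, true_and] at h ⊢
      exact h
    | node a l r => simp [shT] at h
  | node a l r hl hr =>
    intro T2 g g2 h
    cases T2 with
    | nil => simp [shT] at h
    | node a2 l2 r2 =>
      simp only [shT, List.cons_append, List.append_assoc, List.cons.injEq, true_and] at h ⊢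
      obtain ⟨h1, h2⟩ := hl _ _ _ h
      obtain ⟨h3, h4⟩ := hr _ _ _ h2
      exact ⟨by rw [h1, h3], h4⟩

lemma shT_keys (T : Tr) : ∀ T2 : Tr, shT T = shT T2 → keys T = keys T2 → T = T2 := by
  induction T with
  | nil =>
    intro T2 h _
    cases T2 with
    | nil => rfl
    | node a l r => simp [shT] at h
  | node a l r hl hr =>
    intro T2 h he
    cases T2 with
    | nil => simp [shT] at h
    | node a2 l2 r2 =>
      simp only [shT, List.cons.injEq, true_and] at h
      obtain ⟨h1, h2⟩ := shT_prefix l l2 _ _ h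
      simp only [keys] at he
      have hlen : (keys l).length = (keys l2).length := by
        have h5 := congrArg List.length h1
        rw [shT_len, shT_len] at h5
        omega
      obtain ⟨h3, h4⟩ := List.append_inj he hlen
      simp only [List.cons.injEq] at h4
      rw [h4.1, hl _ h1 h3, hr _ h2 h4.2]

/-- **SP-CODE, part 2** -/
theorem code2 : SCode2 := by
  classical
  intro m Ks
  have hex : ∀ X : List ℕ, (∃ w, ∃ K, keys K = Ks ∧ Lazy K X w) → ∃ K b, keys K = Ks ∧
      Enc K X b ∧ ∀ K' w, keys K' = Ks → Lazy K' X w → b.length ≤ 9 * w := by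
    intro X hX
    obtain ⟨K, hK, hL⟩ := Nat.find_spec hX
    obtain ⟨b, hb, hbl⟩ := enc_of_lazy hL
    refine ⟨K, b, hK, hb, fun K' w hK' hw => hbl.trans ?_⟩
    exact Nat.mul_le_mul_left 9 (Nat.find_min' hX ⟨K', hK', hw⟩)
  have : Inhabited Tr := ⟨Tr.nil⟩
  choose! fK fb hfK hfE hfl using hex
  refine ⟨fun X => shT (fK X) ++ fb X, ?_, ?_⟩
  · intro X K w _ hK hw
    have h : ∃ w, ∃ K, keys K = Ks ∧ Lazy K X w := ⟨w, K, hK, hw⟩
    have h1 := hfl X h K w hK hw
    simp only
    rw [List.length_append, shT_len, hfK X h]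
    omega
  · rintro X ⟨hXm, KX, wX, hKX, hwX⟩ Y ⟨hYm, KY, wY, hKY, hwY⟩ h
    have hX : ∃ w, ∃ K, keys K = Ks ∧ Lazy K X w := ⟨wX, KX, hKX, hwX⟩
    have hY : ∃ w, ∃ K, keys K = Ks ∧ Lazy K Y w := ⟨wY, KY, hKY, hwY⟩
    simp only at h
    obtain ⟨h1, h2⟩ := shT_prefix _ _ _ _ h
    have hKK : fK X = fK Y := shT_keys _ _ h1 (by rw [hfK X hX, hfK Y hY])
    have hEY := hfE Y hY
    rw [← hKK] at hEY
    exact (enc_inj X (fK X) Y _ _ [] [] (hfE X hX) hEY (by rw [hXm, hYm]) (by rw [h2])).1

end Pool.Agent.Y532.SP
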