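import Pool.Agent.Y532.SP.BAI

/-! Project SP: averages stay in the class. -/

set_option autoImplicit false

open MeasureTheory Set Metric Filter Topology
open scoped ENNReal NNReal

namespace Pool.Agent.Y532.SP.AVE

open Pool.Agent.Y485.HS Pool.Agent.Y489.SP Pool.Agent.Y475.HS Pool.Agent.Y532.SP.BAI

lemma diam_conv {n : ℕ} (f g : C(BB n, E n)) (a b : ℝ) (ha : 0 ≤ a) (hb : 0 ≤ b)
    (c : E n) (r : ℝ) :
    Metric.diam (ext (a • f + b • g) '' Kar c r) ≤
      a * Metric.diam (ext f '' Kar c r) + b * Metric.diam (ext g '' Kar c r) := by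
  have h0 : 0 ≤ Metric.diam (ext g '' Kar c r) := Metric.diam_nonneg
  have h0' : 0 ≤ Metric.diam (ext f '' Kar c r) := Metric.diam_nonneg
  refine Metric.diam_le_of_forall_dist_le (by positivity) ?_
  rintro _ ⟨x, hx, rfl⟩ _ ⟨y, hy, rfl⟩
  have hf : dist (ext f x) (ext f y) ≤ Metric.diam (ext f '' Kar c r) :=
    Metric.dist_le_diam_of_mem (bdd_ext f c r) (mem_image_of_mem _ hx) (mem_image_of_mem _ hy)
  have hg : dist (ext g x) (ext g y) ≤ Metric.diam (ext g '' Kar c r) :=
    Metric.dist_le_diam_of_mem (bdd_ext g c r) (mem_image_of_mem _ hx) (mem_image_of_mem _ hy)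
  have hval : ∀ z (hz : z ∈ Kar c r), ext (a • f + b • g) z = a • ext f z + b • ext g z := by
    intro z hz
    rw [ext_of_mem _ (kar_sub c r hz), ext_of_mem _ (kar_sub c r hz),
      ext_of_mem _ (kar_sub c r hz)]
    rfl
  rw [hval x hx, hval y hy]
  refine (dist_add_add_le _ _ _ _).trans ?_
  rw [dist_smul₀, dist_smul₀, Real.norm_of_nonneg ha, Real.norm_of_nonneg hb]
  gcongr

lemma convex_en {n : ℕ} (N : ℕ) : Convex ℝ {f : C(BB n, E n) | En N (ext f)} := by
  intro f hf g hg a b ha hb hab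
  intro r hr hr1 A hA hAs
  have h1 := hf r hr hr1 A hA hAs
  have h2 := hg r hr hr1 A hA hAs
  calc ∑ c ∈ A, Metric.diam (ext (a • f + b • g) '' Kar c r) ^ n
      ≤ ∑ c ∈ A, (a * Metric.diam (ext f '' Kar c r) ^ n +
          b * Metric.diam (ext g '' Kar c r) ^ n) := by
        refine Finset.sum_le_sum fun c _ => ?_
        have h3 : Metric.diam (ext (a • f + b • g) '' Kar c r) ^ n ≤
            (a * Metric.diam (ext f '' Kar c r) + b * Metric.diam (ext g '' Kar c r)) ^ n :=
          pow_le_pow_left₀ Metric.diam_nonneg (diam_conv f g a b ha hb c r) n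
        have h4 := (convexOn_pow (𝕜 := ℝ) n).2
          (show Metric.diam (ext f '' Kar c r) ∈ Ici (0 : ℝ) from Metric.diam_nonneg)
          (show Metric.diam (ext g '' Kar c r) ∈ Ici (0 : ℝ) from Metric.diam_nonneg) ha hb hab
        simp only [smul_eq_mul] at h4
        exact h3.trans h4
    _ = a * ∑ c ∈ A, Metric.diam (ext f '' Kar c r) ^ n +
          b * ∑ c ∈ A, Metric.diam (ext g '' Kar c r) ^ n := by
        rw [Finset.sum_add_distrib, Finset.mul_sum, Finset.mul_sum]
    _ ≤ a * (N * r ^ (1 / (N : ℝ) - 1)) + b * (N * r ^ (1 / (N : ℝ) - 1)) := by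
        gcongr
    _ = N * r ^ (1 / (N : ℝ) - 1) := by rw [← add_mul, hab, one_mul]

theorem t_AVE : S_AVE := by
  intro n hn Ω _ _ _ _ μ _ T hT N hTN
  let Φ : C(Ω, C(BB n, E n)) := res T hT
  have hint : Integrable (fun ω => Φ ω) μ :=
    Φ.continuous.integrable_of_hasCompactSupport (HasCompactSupport.of_compactSpace _)
  have hmem : ∫ ω, Φ ω ∂μ ∈ {f : C(BB n, E n) | En N (ext f)} := by
    apply (convex_en N).integral_mem (closed_en N) _ hint
    refine Eventually.of_forall fun ω => ?_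
    exact en_congr (fun x hx => by rw [ext_of_mem _ hx, res_apply]) (hTN ω)
  have heval : ∀ x : BB n, ∫ ω, T ω x.1 ∂μ = (∫ ω, Φ ω ∂μ : C(BB n, E n)) x := by
    intro x
    have := (ContinuousMap.evalCLM ℝ x : C(BB n, E n) →L[ℝ] E n).integral_comp_comm hint
    exact this
  refine ⟨en_congr (fun x hx => ?_) hmem, ?_⟩
  · rw [ext_of_mem _ hx]
    exact (heval ⟨x, hx⟩).symm
  · rw [continuousOn_iff_continuous_domRestrict]
    have : (BB n).domRestrict (fun x => ∫ ω, T ω x ∂μ) = (∫ ω, Φ ω ∂μ : C(BB n, E n)) := by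
      ext1 x
      exact heval x
    rw [this]
    exact (∫ ω, Φ ω ∂μ : C(BB n, E n)).continuous

end Pool.Agent.Y532.SP.AVE
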