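import Pool.Agent.Y489.SP.Stm
import Pool.Agent.Y475.HS.Baire

/-! Project SP: Baire category. -/

set_option autoImplicit false

open MeasureTheory Set Metric Filter Topology
open scoped ENNReal NNReal

namespace Pool.Agent.Y532.SP.BAI

open Pool.Agent.Y485.HS Pool.Agent.Y489.SP Pool.Agent.Y475.HS

/-- the part of a ball used in the discrete energy -/
abbrev Kar {n : ℕ} (a : E n) (r : ℝ) : Set (E n) := closedBall a r ∩ closedBall 0 3

lemma kar_sub {n : ℕ} (a : E n) (r : ℝ) {x : E n} (hx : x ∈ Kar a r) : x ∈ BB n := by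
  have := hx.2
  simp only [BB, mem_closedBall] at this ⊢
  linarith

lemma bdd_ext {n : ℕ} (g : C(BB n, E n)) (a : E n) (r : ℝ) :
    Bornology.IsBounded (ext g '' Kar a r) := by
  have h1 : Bornology.IsBounded (range g) := (isCompact_range g.continuous).isBounded
  refine h1.subset ?_
  rintro _ ⟨x, hx, rfl⟩
  rw [ext_of_mem g (kar_sub a r hx)]
  exact mem_range_self _

lemma diam_lip {n : ℕ} (a : E n) (r : ℝ) :
    LipschitzWith 2 (fun f : C(BB n, E n) => Metric.diam (ext f '' Kar a r)) := by
  refine LipschitzWith.of_le_add_mul 2 fun f g => ?_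
  have hd : 0 ≤ dist f g := dist_nonneg
  have h0 : 0 ≤ Metric.diam (ext g '' Kar a r) := Metric.diam_nonneg
  refine Metric.diam_le_of_forall_dist_le (by positivity) ?_
  rintro _ ⟨x, hx, rfl⟩ _ ⟨y, hy, rfl⟩
  have h1 : dist (ext f x) (ext g x) ≤ dist f g := by
    rw [ext_of_mem f (kar_sub a r hx), ext_of_mem g (kar_sub a r hx)]
    exact ContinuousMap.dist_apply_le_dist _
  have h2 : dist (ext g y) (ext f y) ≤ dist f g := by
    rw [dist_comm, ext_of_mem f (kar_sub a r hy), ext_of_mem g (kar_sub a r hy)]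
    exact ContinuousMap.dist_apply_le_dist _
  have h3 : dist (ext g x) (ext g y) ≤ Metric.diam (ext g '' Kar a r) :=
    Metric.dist_le_diam_of_mem (bdd_ext g a r) (mem_image_of_mem _ hx) (mem_image_of_mem _ hy)
  have h4 := dist_triangle4 (ext f x) (ext g x) (ext g y) (ext f y)
  have h5 : ((2 : ℝ≥0) : ℝ) = 2 := by norm_num
  rw [h5]
  linarith

lemma closed_en {n : ℕ} (N : ℕ) : IsClosed {f : C(BB n, E n) | En N (ext f)} := by
  have h1 : {f : C(BB n, E n) | En N (ext f)} =
      ⋂ (r : ℝ) (_ : 0 < r) (_ : r ≤ 1) (A : Finset (E n))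
        (_ : ∀ a ∈ A, a ∈ closedBall (0 : E n) 3)
        (_ : ∀ a ∈ A, ∀ b ∈ A, a ≠ b → r ≤ dist a b),
        {f : C(BB n, E n) | ∑ a ∈ A, Metric.diam (ext f '' Kar a r) ^ n ≤
          N * r ^ (1 / (N : ℝ) - 1)} := by
    ext f
    simp only [mem_iInter, mem_ofPred_eq, En]
  rw [h1]
  refine isClosed_iInter fun r => isClosed_iInter fun _ => isClosed_iInter fun _ =>
    isClosed_iInter fun A => isClosed_iInter fun _ => isClosed_iInter fun _ => ?_
  refine isClosed_le ?_ continuous_const
  exact continuous_finsetSum _ fun a _ => ((diam_lip a r).continuous).pow n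

lemma en_congr {n N : ℕ} {u v : E n → E n} (h : ∀ x ∈ BB n, u x = v x) (hu : En N u) :
    En N v := by
  intro r hr hr1 A hA hAs
  have h1 : ∀ a : E n, v '' Kar a r = u '' Kar a r := fun a =>
    image_congr fun x hx => (h x (kar_sub a r hx)).symm
  have h2 := hu r hr hr1 A hA hAs
  simp only [Kar] at h1
  simp only [h1]
  exact h2

theorem t_BAI : S_BAI := by
  intro n _ H _ _ _ _ _ _ T hT hfin
  have hcl : ∀ m : ℕ, IsClosed {h : H | En m (T h)} := by
    intro m
    have h1 : {h : H | En m (T h)} = (res T hT) ⁻¹' {f : C(BB n, E n) | En m (ext f)} := by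
      ext h
      simp only [mem_ofPred_eq, mem_preimage]
      constructor
      · exact en_congr fun x hx => by rw [ext_of_mem _ hx, res_apply]
      · exact en_congr fun x hx => by rw [ext_of_mem _ hx, res_apply]
    rw [h1]
    exact (closed_en m).preimage (res T hT).continuous
  have hU : ⋃ m : ℕ, {h : H | En m (T h)} = univ := by
    ext h
    simp only [mem_iUnion, mem_ofPred_eq, mem_univ, iff_true]
    exact hfin h
  obtain ⟨m, h0, hh0⟩ := nonempty_interior_of_iUnion_of_closed hcl hU
  have hopen : IsOpen ((fun k : H => h0 * k) ⁻¹' (interior {h : H | En m (T h)})) :=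
    isOpen_interior.preimage (continuous_const.mul continuous_id)
  obtain ⟨K, hK⟩ := ProfiniteGrp.exist_openNormalSubgroup_sub_open_nhds_of_one hopen (by
    rw [mem_preimage, mul_one]; exact hh0)
  refine ⟨h0, K.toSubgroup, m, K.isOpen', fun k hk => ?_⟩
  have h1 : h0 * k ∈ {h : H | En m (T h)} := interior_subset (hK hk)
  exact h1

end Pool.Agent.Y532.SP.BAI
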